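import Pool.Agent.Helper88.CR.GoalsB
import Pool.Agent.Helper37.PP.HM
import Pool.Agent.Helper69.PP.CO

/-! # Packet CR-PJ: the number of primes `n + j` in the class -/

set_option autoImplicit false

open Finset Filter Topology

open scoped Classical

namespace Pool.Agent.Helper80.CR

open Pool.Agent.Helper88.CR
open Pool.Agent.Helper88.PP (om QQ)
open Pool.Agent.Helper88.GM (NI XI)
open Pool.Agent.Helper88.CG (tw pw th)

theorem ratio_le {w p : ℕ} (hw : 2 ≤ w) (hp : p.Prime) (hpw : p ≤ w) :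
    (Nat.totient (primorial w / p) : ℝ) / ((primorial w / p : ℕ) : ℝ) ≤ om 2 w := by
  have hmem : p ∈ Nat.primesLE w := Nat.mem_primesLE.2 ⟨hpw, hp⟩
  have h1 : primorial w = p * ∏ r ∈ (Nat.primesLE w).erase p, r := by
    rw [primorial_eq_prod_primesLE, Finset.mul_prod_erase _ (fun r => r) hmem]
  have h2 : primorial w / p = ∏ r ∈ (Nat.primesLE w).erase p, r := by
    rw [h1, Nat.mul_div_cancel_left _ hp.pos]
  have hprs : ∀ r ∈ (Nat.primesLE w).erase p, r.Prime := fun r hr =>
    (Nat.mem_primesLE.1 (Finset.mem_of_mem_erase hr)).2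
  have h3 : (primorial w / p).primeFactors = (Nat.primesLE w).erase p := by
    rw [h2, Nat.primeFactors_prod hprs]
  have hq0 : primorial w / p ≠ 0 := by
    rw [h2]
    exact Finset.prod_ne_zero_iff.2 fun r hr => (hprs r hr).ne_zero
  have hq0' : ((primorial w / p : ℕ) : ℝ) ≠ 0 := by exact_mod_cast hq0
  have h4 := Pool.Agent.Helper37.PP.totient_primorial w hw
  have hN0 : ((primorial w : ℕ) : ℝ) ≠ 0 := by exact_mod_cast primorial_ne_zero w
  rw [Pool.Agent.Helper69.PP.totient_real (primorial w), mul_div_cancel_left₀ _ hN0,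
    primeFactors_primorial, ← Finset.mul_prod_erase _ _ hmem] at h4
  rw [Pool.Agent.Helper69.PP.totient_real (primorial w / p), mul_div_cancel_left₀ _ hq0', h3]
  set A := ∏ r ∈ (Nat.primesLE w).erase p, (1 - (r : ℝ)⁻¹) with hA
  have hA0 : 0 ≤ A := by
    refine Finset.prod_nonneg fun r hr => ?_
    have hr2 : (2 : ℝ) ≤ r := by exact_mod_cast (hprs r hr).two_le
    have : (r : ℝ)⁻¹ ≤ 1 := inv_le_one_of_one_le₀ (by linarith)
    linarith
  have hp2 : (2 : ℝ) ≤ p := by exact_mod_cast hp.two_le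
  have hpi : (p : ℝ)⁻¹ ≤ 1 / 2 := by
    rw [one_div]
    exact inv_anti₀ (by norm_num) hp2
  nlinarith [h4, hA0, hpi]

theorem pw_nonneg {x n : ℕ} : 0 ≤ pw x n := by
  unfold pw
  split_ifs
  · refine mul_nonneg (le_max_left _ _) (div_nonneg (Real.log_natCast_nonneg _)
      (Real.log_natCast_nonneg _))
  · exact le_rfl

theorem pw_supp {x m : ℕ} (hx : 0 < x) (hm : 0 < m) (h : pw x m ≠ 0) :
    (x : ℝ) / 16 < m ∧ m < x := by
  have hx' : (0 : ℝ) < x := by exact_mod_cast hx
  have hm' : (0 : ℝ) < m := by exact_mod_cast hm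
  have h4 : 0 < Real.log 4 := Real.log_pos (by norm_num)
  have h1 : tw x m ≠ 0 := by
    intro h0
    apply h
    unfold pw
    split_ifs
    · rw [h0, zero_mul]
    · rfl
  have h2 : |Real.log (4 * m / x)| < Real.log 4 := by
    by_contra hcon
    push Not at hcon
    apply h1
    unfold tw
    apply max_eq_left
    have : 1 ≤ |Real.log (4 * m / x)| / Real.log 4 := by
      rw [le_div_iff₀ h4]
      linarith
    linarith
  have hpos : 0 < 4 * (m : ℝ) / x := by positivity
  obtain ⟨h3, h5⟩ := abs_lt.1 h2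
  constructor
  · rw [← Real.log_inv, Real.log_lt_log_iff (by norm_num) hpos, lt_div_iff₀ hx'] at h3
    linarith
  · rw [Real.log_lt_log_iff hpos (by norm_num), div_lt_iff₀ hx'] at h5
    have : (m : ℝ) < x := by linarith
    exact_mod_cast this

theorem pj (h : StmtPX) : StmtPJ := by
  obtain ⟨c0, C0, hc0, hC0, x1, hPX⟩ := h
  obtain ⟨C3, hC3, hMP⟩ := Pool.Agent.Helper37.PP.mp
  have hev : ∀ᶠ x : ℕ in atTop, Real.log x ^ 3 ≤ x / 64 := by
    have h1 : ∀ᶠ x : ℝ in atTop, Real.log x ^ 3 ≤ x / 64 := by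
      have h2 := isLittleO_log_rpow_atTop (r := 1 / 3) (by norm_num)
      have h3 := h2.bound (show (0 : ℝ) < 1 / 4 by norm_num)
      filter_upwards [h3, eventually_ge_atTop 1] with x hx hx1
      rw [Real.norm_of_nonneg (Real.log_nonneg hx1),
        Real.norm_of_nonneg (Real.rpow_nonneg (by linarith) _)] at hx
      have h4 : Real.log x ^ 3 ≤ (1 / 4 * x ^ (1 / 3 : ℝ)) ^ 3 :=
        pow_le_pow_left₀ (Real.log_nonneg hx1) hx 3
      have h5 : (x ^ (1 / 3 : ℝ)) ^ 3 = x := by
        rw [← Real.rpow_natCast, ← Real.rpow_mul (by linarith)]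
        norm_num
      rw [mul_pow, h5] at h4
      linarith
    exact tendsto_natCast_atTop_atTop.eventually h1
  have hev2 : ∀ᶠ x : ℕ in atTop, 4 ≤ Real.log x :=
    (Real.tendsto_log_atTop.comp tendsto_natCast_atTop_atTop).eventually_ge_atTop 4
  obtain ⟨x2, hx2⟩ := eventually_atTop.1 (hev.and hev2)
  refine ⟨c0 / C3, C0, by positivity, hC0, max x1 (max x2 1), fun x w hx hw hCw => ?_⟩
  have hxx1 : x1 ≤ x := le_trans (le_max_left _ _) hx
  have hxx2 : x2 ≤ x := le_trans (le_trans (le_max_left _ _) (le_max_right _ _)) hx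
  have hx0 : 0 < x := lt_of_lt_of_le one_pos
    (le_trans (le_trans (le_max_right _ _) (le_max_right _ _)) hx)
  have hx0' : (0 : ℝ) < x := by exact_mod_cast hx0
  obtain ⟨hl3, hl4⟩ := hx2 x hxx2
  obtain ⟨p, hp, hpw, hP⟩ := hPX x w hxx1 hw hCw
  refine ⟨p, hp, hpw, fun b j hb hj hcop => ?_⟩
  have hw2' : (2 : ℝ) ≤ w := by
    refine le_trans ?_ hw
    rw [show (2 : ℝ) = √4 by rw [show (4 : ℝ) = 2 ^ 2 by norm_num, Real.sqrt_sq (by norm_num)]]
    exact Real.sqrt_le_sqrt hl4
  have hw2 : 2 ≤ w := by exact_mod_cast hw2'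
  set q := primorial w / p with hq
  have hq0 : 0 < q := Nat.div_pos (Nat.le_of_dvd (primorial_pos w)
    ((hp.dvd_primorial_iff).2 hpw)) hp.pos
  have hq0' : (0 : ℝ) < q := by exact_mod_cast hq0
  have hjx : (j : ℝ) ≤ x / 64 := hj.trans hl3
  -- the sum over the class
  have hsum : th x q (b + j) ≤ ∑ n ∈ NI (x / 32) x q b, pw x (n + j) := by
    unfold th
    rw [← Finset.sum_filter_ne_zero]
    set S := ((Icc 1 x).filter (fun n => n ≡ b + j [MOD q])).filter (fun n => pw x n ≠ 0) with hS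
    have hSm : ∀ m ∈ S, 1 ≤ m ∧ m ≤ x ∧ m ≡ b + j [MOD q] ∧ (x : ℝ) / 16 < m ∧ j ≤ m := by
      intro m hm
      rw [hS, mem_filter, mem_filter, mem_Icc] at hm
      obtain ⟨⟨⟨h1, h2⟩, h3⟩, h4⟩ := hm
      have h5 := pw_supp hx0 h1 h4
      have h6 : (j : ℝ) ≤ m := by linarith [h5.1]
      exact ⟨h1, h2, h3, h5.1, by exact_mod_cast h6⟩
    have hinj : Set.InjOn (fun m => m - j) (S : Set ℕ) := by
      intro m hm m' hm' hmm
      have h1 := (hSm m hm).2.2.2.2
      have h2 := (hSm m' hm').2.2.2.2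
      simp only at hmm
      omega
    have himg : ∑ m ∈ S, pw x m = ∑ n ∈ S.image (fun m => m - j), pw x (n + j) := by
      rw [Finset.sum_image hinj]
      refine Finset.sum_congr rfl fun m hm => ?_
      rw [Nat.sub_add_cancel (hSm m hm).2.2.2.2]
    rw [himg]
    refine Finset.sum_le_sum_of_subset_of_nonneg ?_ fun _ _ _ => pw_nonneg
    intro n hn
    obtain ⟨m, hm, rfl⟩ := Finset.mem_image.1 hn
    obtain ⟨h1, h2, h3, h4, h5⟩ := hSm m hm
    unfold NI
    rw [mem_filter, mem_Ioc]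
    have h6 : ((m - j : ℕ) : ℝ) = m - j := Nat.cast_sub h5
    have h7 : ((x / 32 : ℕ) : ℝ) ≤ x / 32 := by
      have := Nat.cast_div_le (α := ℝ) (m := x) (n := 32)
      exact_mod_cast this
    refine ⟨⟨?_, by omega⟩, ?_⟩
    · have : ((x / 32 : ℕ) : ℝ) < ((m - j : ℕ) : ℝ) := by
        rw [h6]
        linarith
      exact_mod_cast this
    · have h8 : (m - j) + j ≡ b + j [MOD q] := by
        rw [Nat.sub_add_cancel h5]
        exact h3
      have h9 : m - j ≡ b [MOD q] := Nat.ModEq.add_right_cancel' j h8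
      have h10 : (m - j) % q = b % q := h9
      rw [h10, Nat.mod_eq_of_lt hb]
  refine le_trans ?_ ((hP (b + j) hcop).trans hsum)
  -- the constants
  have hratio := ratio_le hw2 hp hpw
  have hlw : 0 < Real.log w := Real.log_pos (by linarith)
  have hlx : 0 < Real.log x := by linarith
  have hom : om 2 w ≤ C3 / Real.log w := by
    have h1 := hMP 2 w le_rfl hw2
    refine h1.trans ?_
    rw [mul_div_assoc']
    refine div_le_div_of_nonneg_right ?_ hlw.le
    have h3 : Real.log (2 : ℕ) ≤ 1 := by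
      have := Real.log_two_lt_d9
      push_cast
      linarith
    nlinarith
  have hphi0 : 0 < (Nat.totient q : ℝ) := by exact_mod_cast Nat.totient_pos.2 hq0
  have hphi : (Nat.totient q : ℝ) * Real.log w ≤ C3 * q := by
    have h1 : (Nat.totient q : ℝ) / q ≤ C3 / Real.log w := hratio.trans hom
    rw [div_le_div_iff₀ hq0' hlw] at h1
    exact h1
  have hXI : XI (x / 32) x q ≤ x / q := by
    unfold XI
    refine div_le_div_of_nonneg_right ?_ hq0'.le
    exact_mod_cast Nat.sub_le _ _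
  calc c0 / C3 * (XI (x / 32) x q * (Real.log w / Real.log x))
      ≤ c0 / C3 * (x / q * (Real.log w / Real.log x)) := by
        refine mul_le_mul_of_nonneg_left ?_ (by positivity)
        exact mul_le_mul_of_nonneg_right hXI (by positivity)
    _ = c0 * x / Real.log x * (Real.log w / (C3 * q)) := by
        field_simp
    _ ≤ c0 * x / Real.log x * (1 / (Nat.totient q : ℝ)) := by
        refine mul_le_mul_of_nonneg_left ?_ (by positivity)
        rw [div_le_div_iff₀ (by positivity) hphi0]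
        linarith
    _ = c0 * (x / ((Nat.totient q : ℝ) * Real.log x)) := by
        field_simp

end Pool.Agent.Helper80.CR
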